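import Mathlib

namespace Pool.Agent.H.MP_0955de_an

open Set Complex intervalIntegral Finset

noncomputable def e (l t : ℝ) : ℂ := exp (I * l * t)

noncomputable def N (T : ℝ) (u : ℝ → ℂ) : ℝ := ∫ t in (0 : ℝ)..T, ‖u t‖ ^ 2

@[fun_prop] theorem e_cont (l : ℝ) : Continuous (e l) := by unfold e; fun_prop

theorem e_add (l t h : ℝ) : e l (t + h) = e l h * e l t := by
  simp only [e, ← exp_add]; congr 1; push_cast; ring

theorem e_norm (l t : ℝ) : ‖e l t‖ = 1 := by
  rw [e, show I * l * t = ((l * t : ℝ) : ℂ) * I by push_cast; ring, norm_exp_ofReal_mul_I]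

theorem e_mul_conj (l m t : ℝ) : e l t * (starRingEnd ℂ) (e m t) = e (l - m) t := by
  simp only [e, ← exp_conj, ← exp_add]; congr 1; simp; ring

theorem int_e (μ T : ℝ) : ‖(∫ t in (0 : ℝ)..T, e μ t) - (if μ = 0 then (T : ℂ) else 0)‖ ≤ 2 / |μ| := by
  split_ifs with h
  · simp [h, e]
  · have h0 : I * μ ≠ 0 := mul_ne_zero I_ne_zero (ofReal_ne_zero.2 h)
    simp only [e]
    rw [integral_exp_mul_complex h0, sub_zero, norm_div, norm_mul, norm_I, one_mul, norm_real,
      Real.norm_eq_abs]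
    gcongr
    refine (norm_sub_le _ _).trans ?_
    have a := e_norm μ T
    have b := e_norm μ 0
    simp only [e] at a b
    rw [a, b]; norm_num

theorem N_nonneg {T : ℝ} (hT : 0 ≤ T) (u : ℝ → ℂ) : 0 ≤ N T u :=
  integral_nonneg hT fun _ _ => by positivity

theorem gram (T B : ℝ) (s : Finset ℝ) (d : ℝ → ℂ) (hB : 0 ≤ B)
    (h : ∑ p ∈ s ×ˢ s, 1 / (p.1 - p.2) ^ 2 ≤ B ^ 2) :
    |N T (fun t => ∑ l ∈ s, d l * e l t) - T * ∑ l ∈ s, ‖d l‖ ^ 2| ≤ 2 * B * ∑ l ∈ s, ‖d l‖ ^ 2 := by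
  have h1 : ((N T (fun t => ∑ l ∈ s, d l * e l t) - T * ∑ l ∈ s, ‖d l‖ ^ 2 : ℝ) : ℂ) =
      ∑ p ∈ s ×ˢ s, d p.1 * (starRingEnd ℂ) (d p.2) *
        ((∫ t in (0 : ℝ)..T, e (p.1 - p.2) t) - if p.1 - p.2 = 0 then (T : ℂ) else 0) := by
    simp only [mul_sub, sum_sub_distrib, ofReal_sub]
    congr 1
    · simp only [N, ← integral_const_mul]
      rw [← integral_ofReal, ← integral_finsetSum fun p _ =>
        (by fun_prop : Continuous fun t => _ * e _ t).intervalIntegrable _ _]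
      congr 1
      ext t
      rw [ofReal_pow, ← mul_conj', map_sum, sum_mul_sum, sum_product]
      refine sum_congr rfl fun a _ => sum_congr rfl fun b _ => ?_
      rw [← e_mul_conj, map_mul]; ring
    · rw [sum_product]
      push_cast
      rw [mul_sum]
      refine sum_congr rfl fun a ha => ?_
      simp [sub_eq_zero, ha, mul_conj', mul_comm]
  rw [← Real.norm_eq_abs, ← norm_real, h1]
  refine (norm_sum_le _ _).trans ((sum_le_sum (g := fun p => 2 * (‖d p.1‖ * ‖d p.2‖ *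
    (1 / |p.1 - p.2|))) fun p _ => ?_).trans ?_)
  · rw [norm_mul, norm_mul, RCLike.norm_conj]
    refine (mul_le_mul_of_nonneg_left (int_e _ _) (by positivity)).trans_eq (by ring)
  · rw [← mul_sum, mul_assoc]
    refine mul_le_mul_of_nonneg_left ((sq_le_sq₀ (by positivity) (by positivity)).1
      ((sum_mul_sq_le_sq_mul_sq _ _ _).trans ?_)) two_pos.le
    simp only [mul_pow, div_pow, sq_abs, one_pow]
    rw [sum_product]
    simp only
    rw [← sum_mul_sum, ← sq, mul_comm]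
    gcongr

theorem shift (u : ℝ → ℂ) (hu : Continuous u) (w : ℂ) (hw : ‖w‖ = 1) {S h T : ℝ} (h0 : 0 ≤ h)
    (S0 : 0 ≤ S) (hT : S + h ≤ T) : N S (fun t => u (t + h) - w * u t) ≤ 4 * N T u := by
  have c : Continuous fun t => ‖u t‖ ^ 2 := by fun_prop
  have m : ∀ a b, 0 ≤ a → a ≤ b → b ≤ T → ∫ t in a..b, ‖u t‖ ^ 2 ≤ N T u := fun a b h1 h2 h3 =>
    integral_mono_interval h1 h2 h3 (.of_forall fun _ => by positivity) (c.intervalIntegrable _ _)
  have a1 := m 0 S le_rfl S0 (by linarith)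
  have a2 := m (0 + h) (S + h) (by linarith) (by linarith) hT
  rw [← integral_comp_add_right (fun t => ‖u t‖ ^ 2)] at a2
  have : N S (fun t => u (t + h) - w * u t) ≤
      ∫ t in (0 : ℝ)..S, (2 * ‖u (t + h)‖ ^ 2 + 2 * ‖u t‖ ^ 2) :=
    integral_mono_on S0 (Continuous.intervalIntegrable (by fun_prop) _ _)
      (Continuous.intervalIntegrable (by fun_prop) _ _) fun t _ => by
        have := norm_sub_le (u (t + h)) (w * u t)
        rw [norm_mul, hw, one_mul] at this
        nlinarith [norm_nonneg (u (t + h) - w * u t), sq_nonneg (‖u (t + h)‖ - ‖u t‖)]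
  rw [integral_add (Continuous.intervalIntegrable (by fun_prop) _ _)
    (Continuous.intervalIntegrable (by fun_prop) _ _), integral_const_mul, integral_const_mul] at this
  linarith

theorem N_sub (u v : ℝ → ℂ) (hu : Continuous u) (hv : Continuous v) {T : ℝ} (hT : 0 ≤ T) :
    N T (fun t => u t - v t) ≤ 2 * N T u + 2 * N T v := by
  simp only [N, ← integral_const_mul]
  rw [← integral_add (Continuous.intervalIntegrable (by fun_prop) _ _)
    (Continuous.intervalIntegrable (by fun_prop) _ _)]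
  exact integral_mono_on hT (Continuous.intervalIntegrable (by fun_prop) _ _)
    (Continuous.intervalIntegrable (by fun_prop) _ _) fun t _ => by
      nlinarith [norm_sub_le (u t) (v t), norm_nonneg (u t - v t), sq_nonneg (‖u t‖ - ‖v t‖)]

theorem sinc (δ S : ℝ) (hδ : 0 < δ) (hS : 0 < S) : ∃ c > 0, ∀ l m : ℝ, δ ≤ |l - m| →
    c ≤ ∫ h in (0 : ℝ)..S, ‖e l h - e m h‖ ^ 2 := by
  obtain ⟨c, c0, hc⟩ := (isCompact_Icc (a := δ * S) (b := 2)).exists_forall_le'
    (f := fun x => 1 - Real.sin x / x) (a := 0)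
    (continuousOn_const.sub (Real.continuous_sin.continuousOn.div continuousOn_id fun x hx =>
      ((mul_pos hδ hS).trans_le hx.1).ne')) fun x hx => by
      have := (mul_pos hδ hS).trans_le hx.1
      rw [sub_pos, div_lt_one this]
      exact Real.sin_lt this
  refine ⟨2 * S * min c (1 / 2), by positivity, fun l m h => ?_⟩
  have μ0 : 0 < |l - m| := hδ.trans_le h
  have e1 : ∀ t, ‖e l t - e m t‖ ^ 2 = 2 - 2 * Real.cos (|l - m| * t) := fun t => by
    have : Real.cos (|l - m| * t) = (e l t * (starRingEnd ℂ) (e m t)).re := by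
      rw [e_mul_conj, e, show I * (l - m : ℝ) * t = (((l - m) * t : ℝ) : ℂ) * I by push_cast; ring,
        exp_ofReal_mul_I_re]
      rcases abs_choice (l - m) with h | h <;> simp [h, neg_mul, -neg_sub]
    rw [this, Complex.sq_norm, normSq_sub, normSq_eq_norm_sq, normSq_eq_norm_sq, e_norm, e_norm]
    ring
  generalize |l - m| = μ at *
  simp only [e1]
  rw [integral_sub (by simp) (Continuous.intervalIntegrable (by fun_prop) _ _), integral_const_mul,
    integral_comp_mul_left (fun x => Real.cos x) μ0.ne', integral_cos]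
  have x0 : 0 < μ * S := by positivity
  have k : Real.sin (μ * S) / (μ * S) ≤ 1 - min c (1 / 2) := by
    rcases le_total (μ * S) 2 with h2 | h2
    · linarith [hc (μ * S) ⟨by gcongr, h2⟩, min_le_left c (1 / 2)]
    · rw [div_le_iff₀ x0]
      nlinarith [Real.sin_le_one (μ * S), min_le_right c (1 / 2)]
  have : μ⁻¹ * Real.sin (μ * S) = S * (Real.sin (μ * S) / (μ * S)) := by field_simp
  simp only [mul_zero, Real.sin_zero, sub_zero, smul_eq_mul, integral_const, this]
  nlinarith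

def Low (A : Set ℝ) (T : ℝ) : Prop := ∃ C, 0 ≤ C ∧ ∀ s : Finset ℝ, ↑s ⊆ A → ∀ d : ℝ → ℂ,
  ∑ l ∈ s, ‖d l‖ ^ 2 ≤ C * N T fun t => ∑ l ∈ s, d l * e l t

theorem step {Λ A : Set ℝ} {B : ℝ} (hB : 0 < B)
    (hΛ : ∀ s : Finset ℝ, ↑s ⊆ Λ → ∑ p ∈ s ×ˢ s, 1 / (p.1 - p.2) ^ 2 ≤ B ^ 2) (hA : A ⊆ Λ)
    {m S T : ℝ} (hm : m ∈ Λ) (S0 : 0 < S) (hT : S < T) (h : Low A S) : Low (insert m A) T := by
  classical
  obtain ⟨C, C0, hC⟩ := h
  obtain ⟨c, c0, hc⟩ := sinc (1 / B) (T - S) (by positivity) (by linarith)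
  have T0 : 0 < T := by linarith
  have TS : 0 < T - S := by linarith
  refine ⟨(2 + (T + 2 * (T + 2 * B)) * (4 * C * (T - S) / c)) / T, by positivity,
    fun s hs d => ?_⟩
  have hs' : ↑(s.erase m) ⊆ A := fun x hx => by
    have := mem_erase.1 hx
    exact (hs this.2).resolve_left this.1
  set u : ℝ → ℂ := fun t => ∑ l ∈ s, d l * e l t with hu
  have uc : Continuous u := by fun_prop
  have n0 := N_nonneg T0.le u
  have gap : ∀ l ∈ s.erase m, 1 / B ≤ |l - m| := fun l hl => by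
    have h1 := (mem_erase.1 hl).1
    have h2 := (single_le_sum (f := fun p : ℝ × ℝ => 1 / (p.1 - p.2) ^ 2) (fun _ _ => by positivity)
      (show (l, m) ∈ ({l, m} : Finset ℝ) ×ˢ ({l, m} : Finset ℝ) by simp)).trans
      (hΛ {l, m} (by simpa [Set.insert_subset_iff, hm] using hA (hs' hl)))
    have h3 : 0 < |l - m| := abs_pos.2 (sub_ne_zero.2 h1)
    rw [one_div_le hB h3]
    refine (sq_le_sq₀ (by positivity) hB.le).1 ?_
    simpa using h2
  have a1 : ∀ h ∈ Icc 0 (T - S), ∑ l ∈ s.erase m, ‖d l‖ ^ 2 * ‖e l h - e m h‖ ^ 2 ≤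
      4 * C * N T u := fun h hh => by
    have b1 := hC _ hs' fun l => d l * (e l h - e m h)
    have b2 := shift u uc (e m h) (e_norm _ _) hh.1 S0.le (show S + h ≤ T by linarith [hh.2])
    have : (fun t => ∑ l ∈ s.erase m, d l * (e l h - e m h) * e l t) =
        fun t => u (t + h) - e m h * u t := by
      ext t
      rw [sum_erase _ (by simp), hu]
      simp only [mul_sum, ← sum_sub_distrib, e_add]
      exact sum_congr rfl fun l _ => by ring
    simp only [norm_mul, mul_pow, this] at b1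
    nlinarith [mul_le_mul_of_nonneg_left b2 C0]
  have a2 := integral_mono_on (μ := MeasureTheory.volume) TS.le
    (Continuous.intervalIntegrable (by fun_prop) _ _) (by simp) a1
  rw [integral_finsetSum fun p _ => Continuous.intervalIntegrable (by fun_prop) _ _] at a2
  simp only [integral_const_mul, integral_const, sub_zero, smul_eq_mul] at a2
  have a3 : ∑ l ∈ s.erase m, ‖d l‖ ^ 2 ≤ 4 * C * (T - S) / c * N T u := by
    rw [div_mul_eq_mul_div, le_div_iff₀ c0, sum_mul]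
    refine (sum_le_sum fun l hl => ?_).trans (a2.trans_eq (by ring))
    exact mul_le_mul_of_nonneg_left (hc l m (gap l hl)) (by positivity)
  have a4 := (abs_le.1 (gram T B _ d hB.le (hΛ _ (hs'.trans hA)))).2
  have a5 : T * (∑ l ∈ s, ‖d l‖ ^ 2 - ∑ l ∈ s.erase m, ‖d l‖ ^ 2) ≤
      2 * N T u + 2 * N T fun t => ∑ l ∈ s.erase m, d l * e l t := by
    refine le_trans (le_of_eq ?_) (N_sub _ _ uc (by fun_prop) T0.le)
    by_cases h : m ∈ s
    · simp only [hu, ← add_sum_erase s _ h, add_sub_cancel_right, N, norm_mul, e_norm]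
      simp
    · simp [erase_eq_of_notMem h, hu, N]
  rw [div_mul_eq_mul_div, le_div_iff₀ T0]
  have := mul_le_mul_of_nonneg_left a3 (show 0 ≤ T + 2 * (T + 2 * B) by positivity)
  nlinarith

theorem low (Λ : Set ℝ) (h : Summable fun p : Λ × Λ => 1 / ((p.1 : ℝ) - p.2) ^ 2) {T : ℝ}
    (hT : 0 < T) : Low Λ T := by
  classical
  have h1 : Summable ((Λ ×ˢ Λ).indicator fun p : ℝ × ℝ => 1 / (p.1 - p.2) ^ 2) :=
    summable_subtype_iff_indicator.1 ((Equiv.Set.prod Λ Λ).summable_iff.2 h)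
  have eq : ∀ s : Finset ℝ, ↑s ⊆ Λ → ∑ p ∈ s ×ˢ s, 1 / (p.1 - p.2) ^ 2 =
      ∑ p ∈ s ×ˢ s, (Λ ×ˢ Λ).indicator (fun p : ℝ × ℝ => 1 / (p.1 - p.2) ^ 2) p := fun s hs =>
    sum_congr rfl fun p hp => (indicator_of_mem (show p ∈ Λ ×ˢ Λ from
      ⟨hs (mem_product.1 hp).1, hs (mem_product.1 hp).2⟩)
      fun p : ℝ × ℝ => 1 / (p.1 - p.2) ^ 2).symm
  obtain ⟨B, B0, hB⟩ : ∃ B : ℝ, 0 < B ∧ ∀ s : Finset ℝ, ↑s ⊆ Λ →
      ∑ p ∈ s ×ˢ s, 1 / (p.1 - p.2) ^ 2 ≤ B ^ 2 := by
    refine ⟨|∑' p, (Λ ×ˢ Λ).indicator (fun p : ℝ × ℝ => 1 / (p.1 - p.2) ^ 2) p| + 1,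
      by positivity, fun s hs => ?_⟩
    rw [eq s hs]
    refine (h1.sum_le_tsum _ fun p _ => indicator_nonneg (fun _ _ => by positivity) _).trans
      ((le_abs_self _).trans ?_)
    generalize |∑' p, (Λ ×ˢ Λ).indicator (fun p : ℝ × ℝ => 1 / (p.1 - p.2) ^ 2) p| = x
    nlinarith [sq_nonneg x, sq_nonneg (x + 1 / 2)]
  obtain ⟨F, hF⟩ := summable_iff_vanishing_norm.1 h1 ((T / 8) ^ 2) (by positivity)
  have base : Low (Λ \ ↑(F.image Prod.fst)) (T / 2) := ⟨4 / T, by positivity, fun s hs d => by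
    have b1 := hF (s ×ˢ s) (Finset.disjoint_left.2 fun p hp hp' =>
      (hs (mem_product.1 hp).1).2 (mem_image_of_mem _ hp'))
    rw [← eq s (hs.trans Set.sdiff_subset)] at b1
    have := (abs_le.1 (gram (T / 2) (T / 8) s d (by positivity) ((le_abs_self _).trans b1.le))).1
    rw [div_mul_eq_mul_div, le_div_iff₀ hT]
    linarith⟩
  have ind : ∀ G : Finset ℝ, ↑G ⊆ Λ → ∀ T', T / 2 < T' → Low (↑G ∪ Λ \ ↑(F.image Prod.fst)) T' := by
    intro G
    induction G using Finset.induction_on with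
    | empty =>
      intro _ T' h
      obtain ⟨C, C0, hC⟩ := base
      refine ⟨C, C0, fun s hs d => (hC s (by simpa using hs) d).trans ?_⟩
      exact mul_le_mul_of_nonneg_left (integral_mono_interval le_rfl (by positivity) h.le
        (.of_forall fun _ => by positivity) (Continuous.intervalIntegrable (by fun_prop) _ _)) C0
    | insert m G _ ih =>
      intro hG T' h
      rw [coe_insert, Set.insert_subset_iff] at hG
      rw [coe_insert, Set.insert_union]
      exact step B0 hB (Set.union_subset hG.2 Set.sdiff_subset) hG.1 (S := (T / 2 + T') / 2)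
        (by linarith) (by linarith) (ih hG.2 _ (by linarith))
  convert ind ((F.image Prod.fst).filter (· ∈ Λ)) (fun x hx => (mem_filter.1 hx).2) T (by linarith)
  ext x
  simp only [coe_filter, Set.mem_union, Set.mem_ofPred_eq, Set.mem_sdiff, mem_coe]
  tauto

theorem lowt {Λ : Set ℝ} (h0 : (0 : ℝ) ∈ Λ) (h : ∀ T > 0, Low Λ T) {T : ℝ} (hT : 0 < T) :
    ∃ C, 0 ≤ C ∧ ∀ s : Finset ℝ, ↑s ⊆ Λ → ∀ (d : ℝ → ℂ) (m : ℂ),
      ‖m‖ ^ 2 + ∑ l ∈ s, ‖d l‖ ^ 2 ≤ C * N T fun t => m * t + ∑ l ∈ s, d l * e l t := by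
  classical
  obtain ⟨C, C0, hC⟩ := h (T / 2) (by positivity)
  obtain ⟨D, D0, hD⟩ := h T hT
  refine ⟨2 * D + (1 + 2 * D * T ^ 3) * (16 * C / T ^ 2), by positivity, fun s hs d m => ?_⟩
  set u : ℝ → ℂ := fun t => m * t + ∑ l ∈ s, d l * e l t with hu
  have uc : Continuous u := by fun_prop
  have n0 := N_nonneg hT.le u
  have b1 := hC (insert 0 (s.erase 0)) (by
    rw [coe_insert]; exact Set.insert_subset h0 ((coe_subset.2 (erase_subset _ _)).trans hs))
    fun l => if l = 0 then m * (T / 2 : ℝ) else d l * (e l (T / 2) - 1)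
  have b2 := shift u uc 1 (by simp) (h := T / 2) (S := T / 2) (T := T) (by positivity)
    (by positivity) (by linarith)
  have : (fun t => ∑ l ∈ insert 0 (s.erase 0), (if l = 0 then m * (T / 2 : ℝ) else
      d l * (e l (T / 2) - 1)) * e l t) = fun t => u (t + T / 2) - 1 * u t := by
    ext t
    rw [sum_insert (by simp), sum_congr rfl (g := fun l => d l * (e l (T / 2) - 1) * e l t)
      fun l hl => by rw [if_neg (mem_erase.1 hl).1], sum_erase _ (by simp [e]), hu]
    simp only [e_add, mul_sub, sub_mul, sum_sub_distrib, mul_assoc]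
    simp [e]
    ring
  rw [this, sum_insert (by simp)] at b1
  have b3 : ‖m‖ ^ 2 ≤ 16 * C / T ^ 2 * N T u := by
    have := (le_add_of_nonneg_right (by positivity)).trans b1
    rw [if_pos rfl, norm_mul, norm_real, mul_pow, Real.norm_eq_abs, sq_abs] at this
    rw [div_mul_eq_mul_div, le_div_iff₀ (by positivity)]
    nlinarith [mul_le_mul_of_nonneg_left b2 C0]
  have b4 := N_sub u (fun t => m * t) uc (by fun_prop) hT.le
  simp only [hu, add_sub_cancel_left] at b4
  have b5 : N T (fun t => m * t) ≤ T ^ 3 * ‖m‖ ^ 2 := by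
    have := integral_mono_on (μ := MeasureTheory.volume) (f := fun t : ℝ => ‖m * t‖ ^ 2)
      (g := fun _ => T ^ 2 * ‖m‖ ^ 2) hT.le (Continuous.intervalIntegrable (by fun_prop) _ _)
      (by simp) fun t ht => by
        rw [norm_mul, norm_real, mul_pow, Real.norm_eq_abs, sq_abs, mul_comm]
        gcongr
        exacts [ht.1, ht.2]
    refine this.trans_eq ?_
    simp; ring
  have b6 := (hD s hs d).trans (mul_le_mul_of_nonneg_left b4 D0)
  have b7 := mul_le_mul_of_nonneg_left b5 D0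
  have b8 := mul_le_mul_of_nonneg_left b3 (show 0 ≤ 1 + 2 * D * T ^ 3 by positivity)
  simp only [← hu] at b6
  nlinarith

theorem Z (c : ℝ) : Summable fun n : ℤ => 1 / ((n : ℝ) + c) ^ 2 := by
  simpa [sq_abs] using (Real.summable_one_div_int_add_rpow c 2).2 (by norm_num)

theorem ZZ (c d : ℝ) :
    Summable fun p : ℤ × ℤ => 1 / ((p.1 : ℝ) + c) ^ 2 * (1 / ((p.2 : ℝ) + d) ^ 2) :=
  (Z c).mul_of_nonneg (Z d) (fun _ => by positivity) fun _ => by positivity

theorem S1 (c : ℝ) : Summable fun p : ℤ × ℤ => 1 / (((p.1 : ℝ) - p.2) * (p.1 + p.2 - c)) ^ 2 := by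
  refine ((ZZ 0 (-c)).comp_injective (i := fun p : ℤ × ℤ => (p.1 - p.2, p.1 + p.2))
    fun p q h => ?_).congr fun p => ?_
  · simp only [Prod.mk.injEq] at h
    ext <;> omega
  · simp only [Function.comp, mul_pow, one_div, mul_inv]
    push_cast
    rw [add_zero, ← sub_eq_add_neg]

theorem S2 (c : ℝ) (hc : ∀ n : ℤ, c ≠ n) :
    Summable fun p : ℤ × ℤ => 1 / ((p.1 : ℝ) ^ 2 + p.2 ^ 2 - c * (p.1 - p.2)) ^ 2 := by
  refine (ZZ (-(c / 2)) (c / 2)).of_norm_bounded_eventually ?_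
  obtain ⟨n, hn⟩ := exists_nat_ge (2 * |c|)
  refine ((finite_Icc (-n : ℤ) n).prod (finite_Icc (-n : ℤ) n)).subset fun p hp => ?_
  by_contra h
  apply hp
  have x0 : (p.1 : ℝ) + -(c / 2) ≠ 0 := fun h => hc (2 * p.1) (by push_cast; linarith)
  have y0 : (p.2 : ℝ) + c / 2 ≠ 0 := fun h => hc (-2 * p.2) (by push_cast; linarith)
  have big : c ^ 2 ≤ ((p.1 : ℝ) + -(c / 2)) ^ 2 + ((p.2 : ℝ) + c / 2) ^ 2 := by
    by_contra h2
    apply h
    have a1 := abs_le.1 ((sq_le_sq (a := (p.1 : ℝ) + -(c / 2)) (b := c)).1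
      (by nlinarith [sq_nonneg ((p.2 : ℝ) + c / 2)]))
    have a2 := abs_le.1 ((sq_le_sq (a := (p.2 : ℝ) + c / 2) (b := c)).1
      (by nlinarith [sq_nonneg ((p.1 : ℝ) + -(c / 2))]))
    have a3 := le_abs_self c
    have a4 := neg_abs_le c
    refine ⟨⟨?_, ?_⟩, ?_, ?_⟩ <;> refine (Int.cast_le (R := ℝ)).1 ?_ <;> push_cast <;> linarith
  simp only [Set.mem_ofPred_eq]
  rw [show (p.1 : ℝ) ^ 2 + p.2 ^ 2 - c * (p.1 - p.2) = ((p.1 : ℝ) + -(c / 2)) ^ 2 +
    ((p.2 : ℝ) + c / 2) ^ 2 - c ^ 2 / 2 by ring]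
  generalize (p.1 : ℝ) + -(c / 2) = x at *
  generalize (p.2 : ℝ) + c / 2 = y at *
  rw [Real.norm_of_nonneg (by positivity), one_div_mul_one_div, ← mul_pow]
  refine one_div_le_one_div_of_le (by positivity) (sq_le_sq' ?_ ?_)
  · nlinarith [sq_nonneg (x + y)]
  · nlinarith [sq_nonneg (x - y)]

/-- frequencies along a segment of speed `a` -/
def fr (a : ℝ) (b : Bool) (k : ℤ) : ℝ := (if b then 1 else -1) * (k : ℝ) ^ 2 - a * k

theorem lowfr (a : ℝ) (ha : ∀ n : ℤ, a ≠ n) {T : ℝ} (hT : 0 < T) :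
    Low (range fun i : Bool × ℤ => fr a i.1 i.2) T := by
  have h : Summable fun p : (Bool × Bool) × (ℤ × ℤ) =>
      1 / (fr a p.1.1 p.2.1 - fr a p.1.2 p.2.2) ^ 2 := by
    refine (summable_prod_of_nonneg fun _ => by positivity).2 ⟨?_, (hasSum_fintype _).summable⟩
    rintro ⟨_ | _, _ | _⟩
    · exact (S1 (-a)).congr fun p => by simp only [fr]; congr 1; simp; ring
    · exact (S2 (-a) fun n h => ha (-n) (by push_cast; linarith)).congr fun p => by
        simp only [fr]; congr 1; simp; ring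
    · exact (S2 a ha).congr fun p => by simp only [fr]; congr 1; simp; ring
    · exact (S1 a).congr fun p => by simp only [fr]; congr 1; simp; ring
  set f := fun i : Bool × ℤ => fr a i.1 i.2 with hf
  refine low _ ((h.comp_injective (i := fun p : range f × range f =>
    (((rangeSplitting f p.1).1, (rangeSplitting f p.2).1),
      ((rangeSplitting f p.1).2, (rangeSplitting f p.2).2))) fun p q e => ?_).congr fun p => ?_) hT
  · simp only [Prod.mk.injEq] at e
    exact Prod.ext (rangeSplitting_injective f (Prod.ext e.1.1 e.2.1))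
      (rangeSplitting_injective f (Prod.ext e.1.2 e.2.2))
  · rw [← apply_rangeSplitting f p.1, ← apply_rangeSplitting f p.2]
    rfl

end Pool.Agent.H.MP_0955de_an
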